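import Pool.Agent.H16.ORB.C

/-! # MP_5182ad_lc, row CHL: the total weight does not grow in a challenge step -/

open Classical Finset

namespace Pool.ORB

private theorem wt_nn' {E Nd Sg W : Type} [Fintype E] [Fintype W] [Fintype Sg]
    (D : Dat E Nd Sg W) (ρ u : FS E Nd) : 0 ≤ D.wt ρ u := by
  unfold Dat.wt
  split
  · positivity
  · exact le_refl _

private theorem qp {E Nd Sg W : Type} [Fintype E] [Fintype W] [Fintype Sg]
    (D : Dat E Nd Sg W) : 1 ≤ D.q ∧ 2 * D.p ≤ D.q := by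
  have h1 := D.hq
  have h2 : 4 * D.p ≤ Tp D.p := by unfold Tp; omega
  have hp := D.hp
  have h3 : 1 ≤ Hp D.p := by unfold Hp; omega
  have h4 : Tp D.p ≤ (Tp D.p) ^ 2 := by nlinarith
  have h5 : (Tp D.p) ^ 2 ≤ Hp D.p * (Tp D.p) ^ 2 := by nlinarith
  have h6 : 16 * Hp D.p * (Tp D.p) ^ 2 = 16 * (Hp D.p * (Tp D.p) ^ 2) := by ring
  omega

theorem chl (hK : KIDStmt) : CHLStmt := by
  intro E Nd Sg W _ _ _ D σ κ t F
  obtain ⟨hq1, hqp⟩ := qp D
  have hqR : (1 : ℝ) ≤ (D.q : ℝ) := by exact_mod_cast hq1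
  have hqpR : 2 * (D.p : ℝ) ≤ (D.q : ℝ) := by exact_mod_cast hqp
  have hq0 : (0 : ℝ) < (D.q : ℝ) := by positivity
  obtain ⟨_, hmem, _, hsum⟩ := hK D σ κ t
  have hch : ∀ l ∈ F, Fn (κ ∪ l.2) → D.chal σ l.1 t (ans (κ ∪ l.2)) = true →
        ∀ l' ∈ D.kids σ κ t l, D.wt κ l'.2 ≤ (1 / (D.q : ℝ)) * D.wt κ l.2 := by
    intro l _ hfn _ l' hl'
    obtain ⟨f, hf1, _, rfl⟩ := (hmem l l').mp hl'
    have hfu : f ∉ κ ∪ l.2 := fun h => hf1 (by unfold dm; exact Finset.mem_image_of_mem _ h)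
    have hfκ : f ∉ κ := fun h => hfu (Finset.mem_union_left _ h)
    have hfl : f ∉ l.2 := fun h => hfu (Finset.mem_union_right _ h)
    have e1 : D.wt κ l.2 = (D.q : ℝ) ^ (l.2 ∩ κ).card * (1 / (D.q : ℝ)) ^ (l.2 \ κ).card := by
      unfold Dat.wt; rw [if_pos hfn]
    show D.wt κ (insert f l.2) ≤ _
    rw [e1]
    unfold Dat.wt
    split
    · rw [Finset.insert_inter_of_notMem hfκ, Finset.insert_sdiff_of_notMem _ hfκ,
        Finset.card_insert_of_notMem (fun h => hfl (Finset.sdiff_subset h)), pow_succ]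
      apply le_of_eq; ring
    · positivity
  have h := hsum F (fun l => D.wt κ l.2) (1 / (D.q : ℝ)) (by positivity)
    (fun l => wt_nn' D κ l.2) hch
  have hB0 : 0 ≤ ∑ l ∈ F.filter (fun l => Fn (κ ∪ l.2) ∧
          D.chal σ l.1 t (ans (κ ∪ l.2)) = true), D.wt κ l.2 :=
    Finset.sum_nonneg (fun l _ => wt_nn' D κ l.2)
  have hc1 : 2 * (D.p : ℝ) * (1 / (D.q : ℝ)) ≤ 1 := by
    rw [mul_one_div, div_le_one hq0]; exact hqpR
  have hsplit : ∑ l ∈ F.filter (fun l => Fn (κ ∪ l.2) ∧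
        ¬ D.chal σ l.1 t (ans (κ ∪ l.2)) = true), D.wt κ l.2 +
      ∑ l ∈ F.filter (fun l => Fn (κ ∪ l.2) ∧
        D.chal σ l.1 t (ans (κ ∪ l.2)) = true), D.wt κ l.2 ≤ ∑ l ∈ F, D.wt κ l.2 := by
    rw [← Finset.sum_union]
    · apply Finset.sum_le_sum_of_subset_of_nonneg
      · intro l hl
        rcases Finset.mem_union.mp hl with h | h
        · exact (Finset.mem_filter.mp h).1
        · exact (Finset.mem_filter.mp h).1
      · intro l _ _
        exact wt_nn' D κ l.2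
    · rw [Finset.disjoint_left]
      intro l h1 h2
      exact (Finset.mem_filter.mp h1).2.2 (Finset.mem_filter.mp h2).2.2
  calc ∑ l ∈ D.stp σ κ t F, D.wt κ l.2
      ≤ _ := h
    _ ≤ ∑ l ∈ F.filter (fun l => Fn (κ ∪ l.2) ∧
        ¬ D.chal σ l.1 t (ans (κ ∪ l.2)) = true), D.wt κ l.2 +
        1 * ∑ l ∈ F.filter (fun l => Fn (κ ∪ l.2) ∧
          D.chal σ l.1 t (ans (κ ∪ l.2)) = true), D.wt κ l.2 := by
        apply add_le_add (le_refl _)
        exact mul_le_mul_of_nonneg_right hc1 hB0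
    _ ≤ _ := by rw [one_mul]; exact hsplit

end Pool.ORB
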