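import Pool.Agent.H16.ORB.C

/-! # MP_5182ad_lc, row CNT: counting the valid secret functions -/

open Classical Finset

namespace Pool.ORB

theorem cnt : CNTStmt := by
  intro E Nd Sg W _ _ _ D ρ hρ
  set T : E → Finset W := fun e =>
    (univ : Finset W).filter (fun x => ∀ f ∈ ρ, f.1 = e → f.2.1 ∈ D.V e x) with hT
  have hsub : (univ : Finset (E → W)).filter (fun a => Val D.V a ρ) ⊆ Fintype.piFinset T := by
    intro a ha
    rw [Fintype.mem_piFinset]
    intro e
    rw [hT]
    refine Finset.mem_filter.mpr ⟨Finset.mem_univ _, ?_⟩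
    intro f hf hfe
    have := (Finset.mem_filter.mp ha).2 f hf
    rw [hfe] at this
    exact this
  have hdm : (dm ρ).card = ρ.card := by
    unfold dm
    apply Finset.card_image_of_injOn
    intro f hf g hg hfg
    exact hρ f hf g hg hfg
  have hT1 : ∀ e ∈ dm ρ, (T e).card ≤ 1 := by
    intro e he
    unfold dm at he
    obtain ⟨f, hf, hfe⟩ := Finset.mem_image.mp he
    rw [Finset.card_le_one]
    intro x hx y hy
    by_contra hxy
    have h1 := (Finset.mem_filter.mp hx).2 f hf hfe
    have h2 := (Finset.mem_filter.mp hy).2 f hf hfe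
    exact Finset.disjoint_left.mp (D.disj e x y hxy) h1 h2
  have hT2 : ∀ e, (T e).card ≤ D.q ^ 4 := by
    intro e
    rw [← D.hW]
    exact Finset.card_le_univ _
  have hprod : (Fintype.piFinset T).card ≤ (D.q ^ 4) ^ (Fintype.card E - ρ.card) := by
    rw [Fintype.card_piFinset]
    rw [← Finset.prod_mul_prod_compl (dm ρ) (fun e => (T e).card)]
    calc (∏ e ∈ dm ρ, (T e).card) * ∏ e ∈ (dm ρ)ᶜ, (T e).card
        ≤ 1 * ∏ e ∈ (dm ρ)ᶜ, D.q ^ 4 := by
          apply Nat.mul_le_mul
          · exact Finset.prod_le_one' hT1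
          · exact Finset.prod_le_prod' (fun e _ => hT2 e)
      _ = (D.q ^ 4) ^ (Fintype.card E - ρ.card) := by
          rw [one_mul, Finset.prod_const, Finset.card_compl, hdm]
  have hle : ρ.card ≤ Fintype.card E := by rw [← hdm]; exact Finset.card_le_univ _
  calc ((univ : Finset (E → W)).filter (fun a => Val D.V a ρ)).card * (D.q ^ 4) ^ ρ.card
      ≤ (Fintype.piFinset T).card * (D.q ^ 4) ^ ρ.card :=
        Nat.mul_le_mul_right _ (Finset.card_le_card hsub)
    _ ≤ (D.q ^ 4) ^ (Fintype.card E - ρ.card) * (D.q ^ 4) ^ ρ.card :=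
        Nat.mul_le_mul_right _ hprod
    _ = (D.q ^ 4) ^ Fintype.card E := by rw [← pow_add, Nat.sub_add_cancel hle]

end Pool.ORB
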