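import Pool.Agent.H16.ORB.C

/-! # MP_5182ad_lc, row LEN: records have at most `p + 2` facts -/

open Classical Finset

namespace Pool.ORB

private theorem wt_nn {E Nd Sg W : Type} [Fintype E] [Fintype W] [Fintype Sg]
    (D : Dat E Nd Sg W) (ρ u : FS E Nd) : 0 ≤ D.wt ρ u := by
  unfold Dat.wt
  split
  · positivity
  · exact le_refl _

private theorem q2 {E Nd Sg W : Type} [Fintype E] [Fintype W] [Fintype Sg]
    (D : Dat E Nd Sg W) : 2 ≤ D.q := by
  have h1 := D.hq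
  have h2 : 1 ≤ Tp D.p := by unfold Tp; have := D.hp; omega
  have h3 : 1 ≤ Hp D.p := by unfold Hp; omega
  have h4 : 1 ≤ (Tp D.p) ^ 2 := Nat.one_le_pow _ _ h2
  have h5 : 1 ≤ Hp D.p * (Tp D.p) ^ 2 := Nat.one_le_iff_ne_zero.mpr (by positivity)
  have h6 : 16 * Hp D.p * (Tp D.p) ^ 2 = 16 * (Hp D.p * (Tp D.p) ^ 2) := by ring
  omega

theorem len : LENStmt := by
  intro E Nd Sg W _ _ _ D s σ l hpsi hl hfn hh
  have hq := q2 D
  have hqR : (2 : ℝ) ≤ (D.q : ℝ) := by exact_mod_cast hq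
  have hq0 : (D.q : ℝ) ≠ 0 := by positivity
  set g := l.2 \ s.ρ with hg
  have hwt : D.wt s.ρ l.2 = (D.q : ℝ) ^ (l.2 ∩ s.ρ).card * (1 / (D.q : ℝ)) ^ g.card := by
    unfold Dat.wt; rw [if_pos hfn]
  have hcard : l.2.card = (l.2 ∩ s.ρ).card + g.card := (Finset.card_inter_add_card_sdiff l.2 s.ρ).symm
  have hkey : (D.q : ℝ) ^ l.2.card = ((D.q : ℝ) ^ 2) ^ g.card * D.wt s.ρ l.2 := by
    rw [hwt, hcard, pow_add]
    have : ((D.q : ℝ) ^ 2) ^ g.card * (1 / (D.q : ℝ)) ^ g.card = (D.q : ℝ) ^ g.card := by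
      rw [← mul_pow]; congr 1; field_simp
    calc (D.q : ℝ) ^ (l.2 ∩ s.ρ).card * (D.q : ℝ) ^ g.card
        = (D.q : ℝ) ^ (l.2 ∩ s.ρ).card * (((D.q : ℝ) ^ 2) ^ g.card * (1 / (D.q : ℝ)) ^ g.card) := by
          rw [this]
      _ = _ := by ring
  have hM0 : (0 : ℝ) < D.M := by unfold Dat.M; positivity
  have hbound : ((D.q : ℝ) ^ 2) ^ g.card * D.wt s.ρ l.2 ≤ D.M := by
    rcases Finset.eq_empty_or_nonempty g with h0 | hne
    · rw [h0]; simp only [Finset.card_empty, pow_zero, one_mul]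
      refine le_trans ?_ hpsi
      unfold Dat.Psi
      calc D.wt s.ρ l.2 ≤ ∑ l ∈ s.F σ, D.wt s.ρ l.2 :=
            Finset.single_le_sum (f := fun l : Lf E Nd Sg => D.wt s.ρ l.2)
              (fun i _ => wt_nn D s.ρ i.2) hl
        _ ≤ ∑ σ : Bool, ∑ l ∈ s.F σ, D.wt s.ρ l.2 :=
            Finset.single_le_sum (f := fun σ : Bool => ∑ l ∈ s.F σ, D.wt s.ρ l.2)
              (fun i _ => Finset.sum_nonneg (fun j _ => wt_nn D s.ρ j.2)) (Finset.mem_univ σ)
    · have hnh := hh g (Finset.Subset.refl _)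
      have hFg : Fn g := fun a ha b hb hab =>
        hfn a (Finset.mem_union_right _ (Finset.sdiff_subset ha)) b
          (Finset.mem_union_right _ (Finset.sdiff_subset hb)) hab
      have hdis : Disjoint (dm g) (dm s.ρ) := by
        rw [Finset.disjoint_left]
        intro e he he'
        unfold dm at he he'
        rw [Finset.mem_image] at he he'
        obtain ⟨a, ha, rfl⟩ := he
        obtain ⟨b, hb, hab⟩ := he'
        have hab' := hfn a (Finset.mem_union_right _ (Finset.sdiff_subset ha)) b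
          (Finset.mem_union_left _ hb) hab.symm
        rw [hg, Finset.mem_sdiff] at ha
        exact ha.2 (hab' ▸ hb)
      have hlt : ((D.q : ℝ) ^ 2) ^ g.card * D.mm s g < D.ε ^ g.card * D.M := by
        by_contra hc
        exact hnh ⟨hne, hFg, hdis, not_lt.mp hc⟩
      have hεn : 0 ≤ D.ε := by unfold Dat.ε; positivity
      have hε1 : D.ε ≤ 1 := by
        unfold Dat.ε
        have h2 : 1 ≤ Tp D.p := by unfold Tp; have := D.hp; omega
        have h3 : 1 ≤ Hp D.p := by unfold Hp; omega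
        have h2' : (1 : ℝ) ≤ (Tp D.p : ℝ) := by exact_mod_cast h2
        have h3' : (1 : ℝ) ≤ (Hp D.p : ℝ) := by exact_mod_cast h3
        rw [div_le_one (by positivity)]
        nlinarith
      have hmm : D.wt s.ρ l.2 ≤ D.mm s g := by
        unfold Dat.mm
        calc D.wt s.ρ l.2 ≤ ∑ l ∈ (s.F σ).filter (fun l => g ⊆ l.2), D.wt s.ρ l.2 :=
              Finset.single_le_sum (f := fun l : Lf E Nd Sg => D.wt s.ρ l.2)
                (fun i _ => wt_nn D s.ρ i.2)
                (Finset.mem_filter.mpr ⟨hl, Finset.sdiff_subset⟩)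
          _ ≤ ∑ σ : Bool, ∑ l ∈ (s.F σ).filter (fun l => g ⊆ l.2), D.wt s.ρ l.2 :=
              Finset.single_le_sum
                (f := fun σ : Bool => ∑ l ∈ (s.F σ).filter (fun l => g ⊆ l.2), D.wt s.ρ l.2)
                (fun i _ => Finset.sum_nonneg (fun j _ => wt_nn D s.ρ j.2)) (Finset.mem_univ σ)
      calc ((D.q : ℝ) ^ 2) ^ g.card * D.wt s.ρ l.2
          ≤ ((D.q : ℝ) ^ 2) ^ g.card * D.mm s g :=
            mul_le_mul_of_nonneg_left hmm (by positivity)
        _ ≤ D.ε ^ g.card * D.M := hlt.le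
        _ ≤ 1 * D.M := mul_le_mul_of_nonneg_right (pow_le_one₀ hεn hε1) hM0.le
        _ = D.M := one_mul _
  have hfin : (2 : ℝ) ^ l.2.card ≤ 2 ^ (D.p + 2) := by
    calc (2 : ℝ) ^ l.2.card ≤ (D.q : ℝ) ^ l.2.card := pow_le_pow_left₀ (by norm_num) hqR _
      _ ≤ D.M := by rw [hkey]; exact hbound
      _ = 2 ^ (D.p + 2) := rfl
  unfold Hp
  exact (pow_le_pow_iff_right₀ (by norm_num : (1 : ℝ) < 2)).mp hfin

end Pool.ORB
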