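import Pool.Agent.H16.ORB.W

/-! # MP_5182ad_lc, row NUM: polynomials are below `2 ^ κ` for large `κ` -/

open Classical Finset

namespace Pool.ORB

open Polynomial in
private theorem tend (A : ℕ[X]) :
    Filter.Tendsto (fun k : ℕ => ((A.eval k : ℕ) : ℝ) / 2 ^ k) Filter.atTop (nhds 0) := by
  induction A using Polynomial.induction_on' with
  | add p q hp hq =>
    have h := hp.add hq
    rw [add_zero] at h
    refine h.congr (fun k => ?_)
    rw [Polynomial.eval_add]; push_cast; ring
  | monomial n a =>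
    have h := (tendsto_pow_const_div_const_pow_of_one_lt n (by norm_num : (1 : ℝ) < 2)).const_mul
      (a : ℝ)
    rw [mul_zero] at h
    refine h.congr (fun k => ?_)
    rw [Polynomial.eval_monomial]; push_cast; ring

open Polynomial in
private theorem evt (A : ℕ[X]) : ∀ᶠ k : ℕ in Filter.atTop, A.eval k < 2 ^ k := by
  have h := (tend A).eventually_lt_const (by norm_num : (0 : ℝ) < 1)
  filter_upwards [h] with k hk
  rw [div_lt_one (by positivity)] at hk
  exact_mod_cast hk

open Polynomial in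
theorem num : NUMStmt := by
  intro P r B
  set N : ℕ[X] := 24 * (X + 1) with hN
  set Q : ℕ[X] := P.comp (2 * N + 3 * r.comp N + 2) + r.comp N + 1 with hQ
  have eN : ∀ k : ℕ, N.eval k = 24 * (k + 1) := by
    intro k; rw [hN]; simp [Polynomial.eval_mul, Polynomial.eval_ofNat]
  have eQ : ∀ k : ℕ, Q.eval k = P.eval (2 * (24 * (k + 1)) + 3 * r.eval (24 * (k + 1)) + 2) +
        r.eval (24 * (k + 1)) + 1 := by
    intro k; rw [hQ]
    simp only [Polynomial.eval_add, Polynomial.eval_mul, Polynomial.eval_comp,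
      Polynomial.eval_ofNat, Polynomial.eval_one, eN]
  set H : ℕ[X] := Q + 2 with hH
  set T : ℕ[X] := 4 * Q + 4 * (Q + 2) * (Q + 3) with hT
  have eH : ∀ k : ℕ, H.eval k = Hp (Q.eval k) := by
    intro k; rw [hH]; simp only [Polynomial.eval_add, Polynomial.eval_ofNat, Hp]
  have eT : ∀ k : ℕ, T.eval k = Tp (Q.eval k) := by
    intro k; rw [hT]
    simp only [Polynomial.eval_add, Polynomial.eval_mul, Polynomial.eval_ofNat, Tp]
  set G : ℕ[X] := 16 * H * T ^ 2 with hG
  set S : ℕ[X] := T * H + (T * (2 + Q + (Q + 1) * (Q + 2)) + 1) with hS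
  have eG : ∀ k : ℕ, G.eval k = 16 * Hp (Q.eval k) * (Tp (Q.eval k)) ^ 2 := by
    intro k; rw [hG]
    simp only [Polynomial.eval_mul, Polynomial.eval_pow, Polynomial.eval_ofNat, eH, eT]
  have eS : ∀ k : ℕ, S.eval k = Sp (Q.eval k) := by
    intro k; rw [hS]
    simp only [Polynomial.eval_add, Polynomial.eval_mul, Polynomial.eval_ofNat,
      Polynomial.eval_one, eH, eT, Sp, Np]
  obtain ⟨k, hk⟩ := ((evt G).and ((evt S).and (Filter.eventually_ge_atTop B))).exists
  obtain ⟨h1, h2, h3⟩ := hk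
  refine ⟨k, h3, ?_, ?_⟩
  · rw [← eQ, ← eG]; exact h1.le
  · rw [← eQ, ← eS]; exact h2

end Pool.ORB
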